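import Pool.Agent.Q68.PM.Defs

/-!
# Counting lemmas
-/

set_option autoImplicit false

namespace Pool.Agent.Q68.PM

open Filter Topology Finset

/-- Few codes have small support. -/
lemma card_codes {L : Type} [Fintype L] [Nonempty L] (d : ℕ) (η : ℝ) (h0 : 0 < η) (h1 : η ≤ 1) :
    ((Finset.univ.filter (fun u : Fin d → Option L =>
      ((Finset.univ.filter (fun j => (u j).isSome = true)).card : ℝ) ≤ η * d)).card : ℝ) ≤
    Real.exp (d * (η * (Real.log (Fintype.card L) - Real.log η) + η)) := by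
  classical
  set N : ℝ := ((Fintype.card L : ℕ) : ℝ) with hN
  have hN1 : 1 ≤ N := by
    rw [hN]; exact_mod_cast Fintype.card_pos
  have hN0 : 0 < N := by linarith
  set lam : ℝ := η / N with hlam
  have hl0 : 0 < lam := by positivity
  have hl1 : lam ≤ 1 := by rw [hlam, div_le_one hN0]; linarith
  have hsum : ∑ u : Fin d → Option L, ∏ j, (if (u j).isSome = true then lam else 1)
      = (1 + η) ^ d := by
    have := Fintype.sum_pow (fun a : Option L => (if a.isSome = true then lam else (1:ℝ))) d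
    rw [← this]
    congr 1
    rw [Fintype.sum_option]
    simp
    rw [← hN, hlam]
    field_simp
  have hprod : ∀ u : Fin d → Option L, ∏ j, (if (u j).isSome = true then lam else (1:ℝ))
      = lam ^ ((Finset.univ.filter (fun j => (u j).isSome = true)).card : ℝ) := by
    intro u
    rw [Finset.prod_ite]
    simp [Real.rpow_natCast]
  have hlow : ((Finset.univ.filter (fun u : Fin d → Option L =>
      ((Finset.univ.filter (fun j => (u j).isSome = true)).card : ℝ) ≤ η * d)).card : ℝ) *
        lam ^ (η * d) ≤ (1 + η) ^ d := by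
    rw [← hsum, ← nsmul_eq_mul]
    calc _ = ∑ u ∈ (Finset.univ.filter (fun u : Fin d → Option L =>
      ((Finset.univ.filter (fun j => (u j).isSome = true)).card : ℝ) ≤ η * d)), lam ^ (η * d) := by
            rw [Finset.sum_const]
      _ ≤ ∑ u ∈ (Finset.univ.filter (fun u : Fin d → Option L =>
      ((Finset.univ.filter (fun j => (u j).isSome = true)).card : ℝ) ≤ η * d)),
          ∏ j, (if (u j).isSome = true then lam else 1) := by
            apply Finset.sum_le_sum
            intro u hu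
            rw [hprod u]
            exact Real.rpow_le_rpow_of_exponent_ge hl0 hl1 (Finset.mem_filter.1 hu).2
      _ ≤ _ := by
            apply Finset.sum_le_sum_of_subset_of_nonneg (Finset.filter_subset _ _)
            intro u _ _
            apply Finset.prod_nonneg
            intro j _
            split_ifs <;> positivity
  have hexp : (1 + η) ^ d ≤ Real.exp (d * η) := by
    rw [Real.exp_nat_mul]
    apply pow_le_pow_left₀ (by positivity)
    linarith [Real.add_one_le_exp η]
  have hlp : 0 < lam ^ (η * d) := Real.rpow_pos_of_pos hl0 _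
  have hle : ((Finset.univ.filter (fun u : Fin d → Option L =>
      ((Finset.univ.filter (fun j => (u j).isSome = true)).card : ℝ) ≤ η * d)).card : ℝ) ≤
        Real.exp (d * η) / lam ^ (η * d) := by
    rw [le_div_iff₀ hlp]
    exact hlow.trans hexp
  refine hle.trans (le_of_eq ?_)
  rw [Real.rpow_def_of_pos hl0, ← Real.exp_sub]
  congr 1
  rw [hlam, Real.log_div h0.ne' hN0.ne']
  ring

/-- Maximal separated sets. -/
lemma exists_maximal {Z : Type} (Y : Set Z) (θ : Z → Z → ℝ) (ε : ℝ) (hε : 0 < ε)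
    (hself : ∀ x, θ x x = 0) (hsymm : ∀ x y, θ x y = θ y x) :
    ∃ T ⊆ Y, (∀ x ∈ T, ∀ y ∈ T, x ≠ y → ε ≤ θ x y) ∧ ∀ x ∈ Y, ∃ t ∈ T, θ x t < ε := by
  obtain ⟨T, hT⟩ := zorn_subset {T : Set Z | T ⊆ Y ∧ ∀ x ∈ T, ∀ y ∈ T, x ≠ y → ε ≤ θ x y} (by
    intro c hc hchain
    refine ⟨⋃₀ c, ⟨Set.sUnion_subset fun s hs => (hc hs).1, ?_⟩, fun s hs => Set.subset_sUnion_of_mem hs⟩
    rintro x ⟨s, hs, hxs⟩ y ⟨t, ht, hyt⟩ hxy
    rcases hchain.total hs ht with h | h
    · exact (hc ht).2 x (h hxs) y hyt hxy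
    · exact (hc hs).2 x hxs y (h hyt) hxy)
  refine ⟨T, hT.prop.1, hT.prop.2, ?_⟩
  intro x hx
  by_contra hcon
  push Not at hcon
  have hmem : insert x T ∈ {T : Set Z | T ⊆ Y ∧ ∀ x ∈ T, ∀ y ∈ T, x ≠ y → ε ≤ θ x y} := by
    refine ⟨Set.insert_subset hx hT.prop.1, ?_⟩
    rintro a (rfl | ha) b (rfl | hb) hab
    · exact absurd rfl hab
    · exact hcon b hb
    · rw [hsymm]; exact hcon a ha
    · exact hT.prop.2 a ha b hb hab
  have hxT : x ∈ T := hT.le_of_ge hmem (Set.subset_insert x T) (Set.mem_insert x T)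
  have := hcon x hxT
  rw [hself] at this
  linarith

/-- The key counting estimate. -/
lemma sepN_le {X : Type} (ρ ρ' : X → X → ℝ) (h1 : ∀ x y, ρ' x y ≤ ρ x y)
    (h2 : ∀ x, ρ x x = 0) (h3 : ∀ x y, ρ x y = ρ y x) (h4 : ∀ x y, 0 ≤ ρ x y)
    (h5 : ∀ x y z, ρ' x z ≤ ρ' x y + ρ' y z) (h6 : ∀ x y, ρ' x y = ρ' y x)
    {L : Type} [Fintype L] [Nonempty L] (l : X → L) (ε : ℝ) (hε : 0 < ε)
    (hl : ∀ x y, l x = l y → ρ' x y < ε)
    (p : ENNReal) (hp : 1 ≤ p) (hp' : p ≠ ⊤) (ε' : ℝ) (hε' : 0 < ε') (η : ℝ) (hη0 : 0 < η)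
    (hη1 : η ≤ 1) (hη : (2 * ε' / ε) ^ p.toReal ≤ η) (d : ℕ) (hd : 0 < d)
    (Y : Set (Fin d → X)) :
    sepN Y (rhoE ρ' ⊤) ε ≤ sepN Y (rhoE ρ p) ε' *
      ((Finset.univ.filter (fun u : Fin d → Option L =>
      ((Finset.univ.filter (fun j => (u j).isSome = true)).card : ℝ) ≤ η * d)).card : ℕ∞) := by
  classical
  have hq : 1 ≤ p.toReal := by
    have := (ENNReal.toReal_le_toReal (by simp) hp').2 hp
    simpa using this
  have hq0 : 0 < p.toReal := by linarith
  have hdR : (0:ℝ) < d := by exact_mod_cast hd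
  obtain ⟨T, hTY, hTsep, hTmax⟩ := exists_maximal Y (rhoE ρ p) ε' hε'
    (by
      intro φ
      simp only [rhoE, if_neg hp', h2]
      rw [Real.zero_rpow hq0.ne']
      simp
      rw [Real.zero_rpow]
      positivity)
    (by
      intro φ ψ
      simp only [rhoE, if_neg hp']
      congr 2
      exact Finset.sum_congr rfl fun j _ => by rw [h3])
  have hTN : T.encard ≤ sepN Y (rhoE ρ p) ε' := by
    unfold sepN
    exact le_iSup_of_le T (le_iSup_of_le hTY (le_iSup_of_le hTsep le_rfl))
  refine le_trans ?_ (mul_le_mul_left hTN _)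
  unfold sepN
  refine iSup_le fun S => iSup_le fun hSY => iSup_le fun hSsep => ?_
  choose! t htT ht using hTmax
  -- the code
  let c : (Fin d → X) → (Fin d → Option L) := fun φ j =>
    if ρ' (φ j) (t φ j) < ε / 2 then none else some (l (φ j))
  set C := (Finset.univ.filter (fun u : Fin d → Option L =>
      ((Finset.univ.filter (fun j => (u j).isSome = true)).card : ℝ) ≤ η * d)) with hC
  have hcC : ∀ φ ∈ S, c φ ∈ C := by
    intro φ hφ
    rw [hC, Finset.mem_filter]
    refine ⟨Finset.mem_univ _, ?_⟩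
    have hlt := ht φ (hSY hφ)
    simp only [rhoE, if_neg hp'] at hlt
    set A := (∑ j, ρ (φ j) (t φ j) ^ p.toReal) / d with hA
    have hA0 : 0 ≤ A := by
      apply div_nonneg _ hdR.le
      exact Finset.sum_nonneg fun j _ => Real.rpow_nonneg (h4 _ _) _
    have hAlt : A < ε' ^ p.toReal := by
      have := Real.rpow_lt_rpow (Real.rpow_nonneg hA0 _) hlt hq0
      rwa [← Real.rpow_mul hA0, one_div, inv_mul_cancel₀ hq0.ne', Real.rpow_one] at this
    have hsub : ((Finset.univ.filter (fun j => (c φ j).isSome = true)).card : ℝ) * (ε/2) ^ p.toReal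
        ≤ ∑ j, ρ (φ j) (t φ j) ^ p.toReal := by
      rw [← nsmul_eq_mul]
      rw [← Finset.sum_const]
      refine le_trans (Finset.sum_le_sum (g := fun j => ρ (φ j) (t φ j) ^ p.toReal) ?_) ?_
      · intro j hj
        have hj' := (Finset.mem_filter.1 hj).2
        have : ¬ (ρ' (φ j) (t φ j) < ε / 2) := by
          intro h
          simp only [c, if_pos h] at hj'
          simp at hj'
        push Not at this
        exact Real.rpow_le_rpow (by positivity) (this.trans (h1 _ _)) hq0.le
      · exact Finset.sum_le_sum_of_subset_of_nonneg (Finset.filter_subset _ _)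
          fun j _ _ => Real.rpow_nonneg (h4 _ _) _
    have hlt2 : ((Finset.univ.filter (fun j => (c φ j).isSome = true)).card : ℝ) *
        (ε/2) ^ p.toReal ≤ d * ε' ^ p.toReal := by
      refine hsub.trans ?_
      have : ∑ j, ρ (φ j) (t φ j) ^ p.toReal = A * d := by
        rw [hA]; field_simp
      rw [this, mul_comm]
      exact mul_le_mul_of_nonneg_left hAlt.le hdR.le
    have he : 0 < (ε/2) ^ p.toReal := Real.rpow_pos_of_pos (by positivity) _
    have hlt3 : ((Finset.univ.filter (fun j => (c φ j).isSome = true)).card : ℝ) ≤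
        d * (2 * ε' / ε) ^ p.toReal := by
      have h7 : (2 * ε' / ε) ^ p.toReal = ε' ^ p.toReal / (ε/2) ^ p.toReal := by
        rw [← Real.div_rpow hε'.le (by positivity)]
        congr 1
        field_simp
      rw [h7, ← mul_div_assoc, le_div_iff₀ he]
      exact hlt2
    calc _ ≤ d * (2 * ε' / ε) ^ p.toReal := hlt3
      _ ≤ d * η := mul_le_mul_of_nonneg_left hη hdR.le
      _ = η * d := mul_comm _ _
  have hinj : Set.InjOn (fun φ => (t φ, c φ)) S := by
    intro φ hφ ψ hψ heq
    simp only [Prod.mk.injEq] at heq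
    obtain ⟨ht1, hc1⟩ := heq
    by_contra hne
    have hge := hSsep φ hφ ψ hψ hne
    have : rhoE ρ' ⊤ φ ψ < ε := by
      simp only [rhoE, if_true]
      haveI : Nonempty (Fin d) := ⟨⟨0, hd⟩⟩
      obtain ⟨j, hj⟩ := exists_eq_ciSup_of_finite (f := fun j => ρ' (φ j) (ψ j))
      rw [← hj]
      have hcj := congrFun hc1 j
      simp only [c] at hcj
      by_cases ha : ρ' (φ j) (t φ j) < ε / 2
      · rw [if_pos ha] at hcj
        by_cases hb : ρ' (ψ j) (t ψ j) < ε / 2
        · calc ρ' (φ j) (ψ j) ≤ ρ' (φ j) (t φ j) + ρ' (t φ j) (ψ j) := h5 _ _ _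
            _ = ρ' (φ j) (t φ j) + ρ' (ψ j) (t ψ j) := by rw [h6 (t φ j) (ψ j), ht1]
            _ < ε := by linarith
        · rw [if_neg hb] at hcj
          exact absurd hcj (by simp)
      · rw [if_neg ha] at hcj
        by_cases hb : ρ' (ψ j) (t ψ j) < ε / 2
        · rw [if_pos hb] at hcj
          exact absurd hcj (by simp)
        · rw [if_neg hb] at hcj
          exact hl _ _ (Option.some.inj hcj)
    linarith
  have hmaps : Set.MapsTo (fun φ => (t φ, c φ)) S (T ×ˢ (C : Set (Fin d → Option L))) := by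
    intro φ hφ
    exact ⟨htT φ (hSY hφ), hcC φ hφ⟩
  have := Set.encard_le_encard_of_injOn hmaps hinj
  rw [Set.encard_prod, Set.encard_coe_eq_coe_finsetCard] at this
  exact this

end Pool.Agent.Q68.PM
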