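import Mathlib

/-!
# Sofic `p`-metric mean dimension: definitions
-/

set_option autoImplicit false

namespace Pool.Agent.Q68.PM

open Filter Topology

/-- `(σ i)` is a sofic approximation of the group `G`. -/
structure IsSoficApprox {G : Type} [Group G] {d : ℕ → ℕ}
    (σ : ∀ i, G → Equiv.Perm (Fin (d i))) : Prop where
  tendsto : Tendsto d atTop atTop
  mul : ∀ s t : G, Tendsto (fun i =>
    (Nat.card {j : Fin (d i) // σ i (s * t) j = σ i s (σ i t j)} : ℝ) / d i) atTop (𝓝 1)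
  free : ∀ s : G, s ≠ 1 → Tendsto (fun i =>
    (Nat.card {j : Fin (d i) // σ i s j = j} : ℝ) / d i) atTop (𝓝 0)

/-- `ρ` is a continuous pseudometric on `X`. -/
structure IsContPseudo {X : Type} [TopologicalSpace X] (ρ : X → X → ℝ) : Prop where
  cont : Continuous fun q : X × X => ρ q.1 q.2
  self : ∀ x, ρ x x = 0
  symm : ∀ x y, ρ x y = ρ y x
  nonneg : ∀ x y, 0 ≤ ρ x y
  tri : ∀ x y z, ρ x z ≤ ρ x y + ρ y z

/-- `ρ` is dynamically generating for the action of `G` on `X`. -/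
def DynGen (G : Type) {X : Type} [SMul G X] (ρ : X → X → ℝ) : Prop :=
  ∀ x y : X, x ≠ y → ∃ s : G, 0 < ρ (s • x) (s • y)

/-- `ρ_p (φ, ψ) = ((1 / d) ∑ ρ (φ j, ψ j) ^ p) ^ (1 / p)` for `p < ∞`, and
`ρ_∞ (φ, ψ) = max ρ (φ j, ψ j)`. -/
noncomputable def rhoE {X : Type} (ρ : X → X → ℝ) (p : ENNReal) {d : ℕ} (φ ψ : Fin d → X) : ℝ :=
  if p = ⊤ then ⨆ j, ρ (φ j) (ψ j)
  else ((∑ j, ρ (φ j) (ψ j) ^ p.toReal) / d) ^ (1 / p.toReal)

/-- The approximately equivariant maps `Map (ρ, F, δ, σ)`. -/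
def MapSet {G X : Type} [SMul G X] (ρ : X → X → ℝ) (F : Finset G) (δ : ℝ) {d : ℕ}
    (σ : G → Equiv.Perm (Fin d)) : Set (Fin d → X) :=
  {φ | ∀ s ∈ F, rhoE ρ 2 (fun j => φ (σ s j)) (fun j => s • φ j) ≤ δ}

/-- `N_ε (Y, θ)`: the largest cardinality of an `ε`-separated subset of `Y`. -/
noncomputable def sepN {Z : Type} (Y : Set Z) (θ : Z → Z → ℝ) (ε : ℝ) : ℕ∞ :=
  ⨆ (S : Set Z) (_ : S ⊆ Y) (_ : ∀ x ∈ S, ∀ y ∈ S, x ≠ y → ε ≤ θ x y), S.encard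

/-- The logarithm, with `log 0 = -∞` and `log ∞ = ∞`. -/
noncomputable def elog (n : ℕ∞) : EReal := ENNReal.log (n : ENNReal)

/-- `mdim_{Σ, p} (ρ)`. -/
noncomputable def mdimRho {G X : Type} [SMul G X] {d : ℕ → ℕ}
    (σ : ∀ i, G → Equiv.Perm (Fin (d i))) (p : ENNReal) (ρ : X → X → ℝ) : EReal :=
  liminf (fun ε : ℝ => ⨅ (F : Finset G) (δ : ℝ) (_ : 0 < δ),
    limsup (fun i => elog (sepN (MapSet ρ F δ (σ i)) (rhoE ρ p) ε) /
      ((d i * Real.log (1 / ε) : ℝ) : EReal)) atTop) (𝓝[>] 0)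

/-- `mdim_{Σ, M, p} (X, G)`: the `p`-metric mean dimension; for `p = ∞` this is the sofic metric mean
dimension. -/
noncomputable def mdimM (X : Type) [TopologicalSpace X] {G : Type} [SMul G X] {d : ℕ → ℕ}
    (σ : ∀ i, G → Equiv.Perm (Fin (d i))) (p : ENNReal) : EReal :=
  ⨅ (ρ : X → X → ℝ) (_ : IsContPseudo ρ) (_ : DynGen G ρ), mdimRho σ p ρ

end Pool.Agent.Q68.PM
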