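import Pool.Agent.Q68.PM.Defs

/-!
# The auxiliary pseudometric `ρ'`
-/

set_option autoImplicit false

namespace Pool.Agent.Q68.PM

open Filter Topology Finset

/-- `ρ' (x, y) = ∑ 2^{-(n+1)} |ρ (x, x_n) - ρ (y, x_n)|`. -/
noncomputable def rp {X : Type} (ρ : X → X → ℝ) (a : ℕ → X) (x y : X) : ℝ :=
  ∑' n, (1/2 : ℝ) ^ n * (1/2) * |ρ x (a n) - ρ y (a n)|

lemma hasSum_half : HasSum (fun n : ℕ => (1/2 : ℝ) ^ n * (1/2)) 1 := by
  have := (hasSum_geometric_two).mul_right (1/2 : ℝ)
  norm_num at this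
  convert this using 2

section
variable {X : Type} [TopologicalSpace X] {ρ : X → X → ℝ} (h : IsContPseudo ρ)
include h

lemma abs_le_rho (x y z : X) : |ρ x z - ρ y z| ≤ ρ x y := by
  rw [abs_le]
  constructor
  · have := h.tri y x z
    rw [h.symm y x] at this
    linarith
  · have := h.tri x y z
    linarith

lemma rp_summable (a : ℕ → X) (x y : X) :
    Summable (fun n : ℕ => (1/2 : ℝ) ^ n * (1/2) * |ρ x (a n) - ρ y (a n)|) := by
  refine Summable.of_nonneg_of_le (fun n => by positivity) (fun n => ?_)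
    (hasSum_half.summable.mul_right (ρ x y))
  exact mul_le_mul_of_nonneg_left (abs_le_rho h x y (a n)) (by positivity)

lemma rp_le (a : ℕ → X) (x y : X) : rp ρ a x y ≤ ρ x y := by
  calc rp ρ a x y ≤ ∑' n, (1/2 : ℝ) ^ n * (1/2) * ρ x y := by
        apply (rp_summable h a x y).tsum_le_tsum _ (hasSum_half.summable.mul_right (ρ x y))
        intro n
        exact mul_le_mul_of_nonneg_left (abs_le_rho h x y (a n)) (by positivity)
    _ = ρ x y := by
        rw [(hasSum_half.mul_right (ρ x y)).tsum_eq, one_mul]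

lemma exists_bound [CompactSpace X] : ∃ D : ℝ, 1 ≤ D ∧ ∀ x y, ρ x y ≤ D := by
  obtain ⟨D, hD⟩ := (isCompact_range h.cont).bddAbove
  refine ⟨max 1 D, le_max_left _ _, fun x y => ?_⟩
  exact (hD ⟨(x, y), rfl⟩).trans (le_max_right _ _)

lemma rp_pseudo [CompactSpace X] (a : ℕ → X) : IsContPseudo (rp ρ a) := by
  obtain ⟨D, hD1, hD⟩ := exists_bound h
  refine ⟨?_, ?_, ?_, ?_, ?_⟩
  · unfold rp
    refine continuous_tsum (u := fun n => (1/2 : ℝ) ^ n * (1/2) * D) ?_
      (hasSum_half.summable.mul_right D) ?_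
    · intro n
      have h1 : Continuous fun q : X × X => ρ q.1 (a n) :=
        h.cont.comp (continuous_fst.prodMk continuous_const)
      have h2 : Continuous fun q : X × X => ρ q.2 (a n) :=
        h.cont.comp (continuous_snd.prodMk continuous_const)
      exact continuous_const.mul (h1.sub h2).abs
    · intro n q
      rw [Real.norm_of_nonneg (by positivity)]
      exact mul_le_mul_of_nonneg_left ((abs_le_rho h q.1 q.2 (a n)).trans (hD _ _))
        (by positivity)
  · intro x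
    simp [rp]
  · intro x y
    unfold rp
    congr 1
    funext n
    rw [abs_sub_comm]
  · intro x y
    exact tsum_nonneg fun n => by positivity
  · intro x y z
    unfold rp
    rw [← (rp_summable h a x y).tsum_add (rp_summable h a y z)]
    apply (rp_summable h a x z).tsum_le_tsum _ ((rp_summable h a x y).add (rp_summable h a y z))
    intro n
    rw [← mul_add]
    exact mul_le_mul_of_nonneg_left (abs_sub_le _ _ _) (by positivity)

lemma rp_eq_zero (a : ℕ → X) (ha : DenseRange a) (x y : X) (hxy : rp ρ a x y = 0) :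
    ρ x y = 0 := by
  have hz : ∀ n, ρ x (a n) = ρ y (a n) := by
    intro n
    have h1 := (hasSum_zero_iff_of_nonneg (f := fun n : ℕ =>
      (1/2 : ℝ) ^ n * (1/2) * |ρ x (a n) - ρ y (a n)|) (fun n => by positivity)).1 (by
        have := (rp_summable h a x y).hasSum
        rw [show (∑' n : ℕ, (1/2 : ℝ) ^ n * (1/2) * |ρ x (a n) - ρ y (a n)|) = 0 from hxy] at this
        exact this)
    have h2 := congrFun h1 n
    simp only [Pi.zero_apply, mul_eq_zero] at h2
    rcases h2 with h2 | h2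
    · exfalso
      rcases h2 with h2 | h2
      · have : (0:ℝ) < (1/2)^n := by positivity
        linarith
      · norm_num at h2
    · have := abs_eq_zero.1 h2
      linarith
  have hc : (fun z => ρ x z) = fun z => ρ y z := by
    apply Continuous.ext_on ha
    · exact h.cont.comp (continuous_const.prodMk continuous_id)
    · exact h.cont.comp (continuous_const.prodMk continuous_id)
    · rintro _ ⟨n, rfl⟩
      exact hz n
  have := congrFun hc y
  rw [this, h.self]

lemma rp_unif [CompactSpace X] (a : ℕ → X) (ha : DenseRange a) (κ : ℝ) (hκ : 0 < κ) :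
    ∃ η > 0, ∀ x y, rp ρ a x y < η → ρ x y < κ := by
  have hK : IsCompact {q : X × X | κ ≤ ρ q.1 q.2} :=
    (isClosed_le continuous_const h.cont).isCompact
  rcases Set.eq_empty_or_nonempty {q : X × X | κ ≤ ρ q.1 q.2} with he | hne
  · refine ⟨1, one_pos, fun x y _ => ?_⟩
    by_contra hc
    push Not at hc
    have : (x, y) ∈ {q : X × X | κ ≤ ρ q.1 q.2} := hc
    rw [he] at this
    exact this
  · obtain ⟨q, hq, hmin⟩ := hK.exists_isMinOn hne (rp_pseudo h a).cont.continuousOn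
    refine ⟨rp ρ a q.1 q.2, ?_, ?_⟩
    · rcases ((rp_pseudo h a).nonneg q.1 q.2).lt_or_eq with h1 | h1
      · exact h1
      · have h2 := rp_eq_zero h a ha q.1 q.2 h1.symm
        have h3 : κ ≤ ρ q.1 q.2 := hq
        linarith
    · intro x y hxy
      by_contra hc
      push Not at hc
      have h4 : (x, y) ∈ {q : X × X | κ ≤ ρ q.1 q.2} := hc
      have := hmin h4
      simp only [Set.mem_setOf_eq] at this
      linarith

/-- Labels. -/
lemma exists_label [CompactSpace X] (a : ℕ → X) (D : ℝ) (hD1 : 1 ≤ D) (hD : ∀ x y, ρ x y ≤ D)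
    (ε : ℝ) (hε : 0 < ε) (hε1 : ε ≤ 1) :
    ∃ (K M : ℕ) (l : X → Fin K → Fin (M + 1)), (∀ x y, l x = l y → rp ρ a x y < ε) ∧
      Real.log (Fintype.card (Fin K → Fin (M + 1))) ≤
        3 * (Real.log (3 * D) + Real.log (1 / ε) + 1) ^ 2 := by
  set M := ⌊2 * D / ε⌋₊ with hM
  have hMlt : 2 * D / ε < M + 1 := Nat.lt_floor_add_one _
  have hMle : (M : ℝ) ≤ 2 * D / ε := Nat.floor_le (by positivity)
  set K := Nat.clog 2 (M + 1) with hK
  have hM1 : 1 < M + 1 := by
    have : 1 ≤ M := by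
      rw [hM, Nat.one_le_floor_iff, one_le_div hε]
      linarith
    omega
  have hKle : M + 1 ≤ 2 ^ K := Nat.le_pow_clog (by norm_num) _
  have hKlt : 2 ^ K.pred < M + 1 := Nat.pow_pred_clog_lt_self (by norm_num) hM1
  refine ⟨K, M, fun x k => ⟨⌊2 * ρ x (a k) / ε⌋₊, ?_⟩, ?_, ?_⟩
  · rw [Nat.lt_succ_iff, hM]
    apply Nat.floor_le_floor
    gcongr
    exact hD _ _
  · intro x y hxy
    have hterm : ∀ n < K, |ρ x (a n) - ρ y (a n)| ≤ ε / 2 := by
      intro n hn
      have h1 := congrFun hxy ⟨n, hn⟩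
      simp only [Fin.mk.injEq] at h1
      have h2 := Nat.lt_floor_add_one (2 * ρ x (a n) / ε)
      have h3 := Nat.lt_floor_add_one (2 * ρ y (a n) / ε)
      have h4 := Nat.floor_le (a := 2 * ρ x (a n) / ε) (by have := h.nonneg x (a n); positivity)
      have h5 := Nat.floor_le (a := 2 * ρ y (a n) / ε) (by have := h.nonneg y (a n); positivity)
      rw [h1] at h2 h4
      have h6 : 2 * ρ x (a n) / ε - 2 * ρ y (a n) / ε < 1 := by linarith
      have h7 : 2 * ρ y (a n) / ε - 2 * ρ x (a n) / ε < 1 := by linarith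
      rw [← sub_div, div_lt_one hε] at h6 h7
      rw [abs_le]
      constructor <;> linarith
    have hs := (rp_summable h a x y).sum_add_tsum_nat_add K
    have hs' := hasSum_half.summable.sum_add_tsum_nat_add K
    rw [hasSum_half.tsum_eq] at hs'
    have htail : ∑' n : ℕ, (1/2 : ℝ) ^ (n + K) * (1/2) = (1/2)^K := by
      have : (fun n : ℕ => (1/2 : ℝ) ^ (n + K) * (1/2)) = fun n : ℕ => (1/2 : ℝ)^n * (1/2) * (1/2)^K := by
        funext n; rw [pow_add]; ring
      rw [this, (hasSum_half.mul_right _).tsum_eq, one_mul]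
    have hsK : ∑ n ∈ Finset.range K, (1/2 : ℝ) ^ n * (1/2) ≤ 1 := by
      have : (0:ℝ) ≤ (1/2)^K := by positivity
      rw [htail] at hs'
      linarith
    have hfirst : ∑ n ∈ Finset.range K, (1/2 : ℝ) ^ n * (1/2) * |ρ x (a n) - ρ y (a n)| ≤ ε / 2 := by
      calc _ ≤ ∑ n ∈ Finset.range K, (1/2 : ℝ) ^ n * (1/2) * (ε / 2) := by
            apply Finset.sum_le_sum
            intro n hn
            exact mul_le_mul_of_nonneg_left (hterm n (Finset.mem_range.1 hn)) (by positivity)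
        _ = (∑ n ∈ Finset.range K, (1/2 : ℝ) ^ n * (1/2)) * (ε / 2) := by rw [Finset.sum_mul]
        _ ≤ 1 * (ε / 2) := by gcongr
        _ = ε / 2 := one_mul _
    have hsecond : ∑' n : ℕ, (1/2 : ℝ) ^ (n + K) * (1/2) * |ρ x (a (n + K)) - ρ y (a (n + K))| ≤
        (1/2)^K * D := by
      rw [← htail, ← tsum_mul_right]
      apply Summable.tsum_le_tsum
      · intro n
        exact mul_le_mul_of_nonneg_left ((abs_le_rho h x y _).trans (hD _ _)) (by positivity)
      · exact (summable_nat_add_iff K).2 (rp_summable h a x y)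
      · exact ((summable_nat_add_iff K).2 hasSum_half.summable).mul_right D
    have hlast : (1/2 : ℝ)^K * D < ε / 2 := by
      have h8 : 2 * D / ε < 2 ^ K := lt_of_lt_of_le hMlt (by exact_mod_cast hKle)
      rw [div_lt_iff₀ hε] at h8
      have h9 : (0:ℝ) < 2 ^ K := by positivity
      rw [one_div, inv_pow, inv_mul_lt_iff₀ h9]
      linarith
    have : rp ρ a x y = ∑' n : ℕ, (1/2 : ℝ) ^ n * (1/2) * |ρ x (a n) - ρ y (a n)| := rfl
    rw [this, ← hs]
    linarith
  · rw [Fintype.card_fun, Fintype.card_fin, Fintype.card_fin]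
    push_cast
    rw [Real.log_pow]
    have hMR : (1:ℝ) < (M:ℝ) + 1 := by exact_mod_cast hM1
    have hlogM : Real.log ((M:ℝ) + 1) ≤ Real.log (3 * D) + Real.log (1 / ε) := by
      rw [← Real.log_mul (by positivity) (by positivity)]
      apply Real.log_le_log (by linarith)
      have : 1 ≤ D / ε := by rw [one_le_div hε]; linarith
      have h10 : 3 * D * (1 / ε) = 2 * D / ε + D / ε := by ring
      rw [h10]; linarith
    have hlogM0 : 0 ≤ Real.log ((M:ℝ) + 1) := Real.log_nonneg hMR.le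
    have hK2 : (K:ℝ) ≤ 2 * Real.log ((M:ℝ) + 1) + 1 := by
      have h11 : ((K.pred : ℕ) : ℝ) * Real.log 2 ≤ Real.log ((M:ℝ)+1) := by
        rw [← Real.log_pow]
        apply Real.log_le_log (by positivity)
        exact_mod_cast hKlt.le
      have h12 : (K:ℝ) ≤ (K.pred : ℝ) + 1 := by
        have : K ≤ K.pred + 1 := by rw [Nat.pred_eq_sub_one]; omega
        exact_mod_cast this
      have h13 : (1/2:ℝ) ≤ Real.log 2 := by linarith [Real.log_two_gt_d9]
      have h14 : (0:ℝ) ≤ (K.pred : ℝ) := by positivity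
      nlinarith
    set B := Real.log ((M:ℝ) + 1) with hB
    set U := Real.log (3 * D) + Real.log (1 / ε) with hU
    have : (K:ℝ) * B ≤ (2 * U + 1) * U := by
      apply mul_le_mul (hK2.trans (by linarith)) hlogM hlogM0 (by linarith)
    nlinarith

end

section
variable {X G : Type} [TopologicalSpace X] [SMul G X] {ρ : X → X → ℝ} (h : IsContPseudo ρ)
include h

lemma rp_dynGen [CompactSpace X] (a : ℕ → X) (ha : DenseRange a) (hG : DynGen G ρ) :
    DynGen G (rp ρ a) := by
  intro x y hxy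
  obtain ⟨s, hs⟩ := hG x y hxy
  refine ⟨s, ?_⟩
  rcases ((rp_pseudo h a).nonneg (s • x) (s • y)).lt_or_eq with h1 | h1
  · exact h1
  · have := rp_eq_zero h a ha _ _ h1.symm
    linarith

lemma rhoE_two_le_iff {d : ℕ} (φ ψ : Fin d → X) (δ : ℝ) (hδ : 0 ≤ δ) :
    rhoE ρ 2 φ ψ ≤ δ ↔ (∑ j, ρ (φ j) (ψ j) ^ 2) / d ≤ δ ^ 2 := by
  have h2 : (2 : ENNReal) ≠ ⊤ := by norm_num
  have h3 : (2 : ENNReal).toReal = 2 := by norm_num
  simp only [rhoE, if_neg h2, h3]
  have h4 : ∀ j, ρ (φ j) (ψ j) ^ (2:ℝ) = ρ (φ j) (ψ j) ^ 2 := fun j => Real.rpow_two _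
  simp only [h4]
  rw [← Real.sqrt_eq_rpow, Real.sqrt_le_left hδ]

lemma mapSet_sub [CompactSpace X] (a : ℕ → X) (ha : DenseRange a) (D : ℝ) (hD1 : 1 ≤ D)
    (hD : ∀ x y, ρ x y ≤ D) (δ : ℝ) (hδ : 0 < δ) :
    ∃ δ' > 0, ∀ (F : Finset G) (d : ℕ) (σ : G → Equiv.Perm (Fin d)),
      MapSet (rp ρ a) F δ' σ ⊆ MapSet ρ F δ σ := by
  obtain ⟨η, hη, hcomp⟩ := rp_unif h a ha (δ / 2) (by positivity)
  refine ⟨δ * η / (2 * D), by positivity, ?_⟩
  intro F d σ φ hφ s hs
  have h1 := hφ s hs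
  rw [rhoE_two_le_iff (rp_pseudo h a) _ _ _ (by positivity)] at h1
  rw [rhoE_two_le_iff h _ _ _ hδ.le]
  have hpt : ∀ x y, ρ x y ^ 2 ≤ (δ / 2) ^ 2 + (D / η) ^ 2 * rp ρ a x y ^ 2 := by
    intro x y
    by_cases hxy : rp ρ a x y < η
    · have h2 := hcomp x y hxy
      have h3 := h.nonneg x y
      have h4 : ρ x y ^ 2 ≤ (δ/2)^2 := by nlinarith
      have : 0 ≤ (D / η) ^ 2 * rp ρ a x y ^ 2 := by positivity
      linarith
    · push Not at hxy
      have h3 := h.nonneg x y
      have h5 : ρ x y ≤ D / η * rp ρ a x y := by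
        calc ρ x y ≤ D := hD _ _
          _ = D / η * η := by field_simp
          _ ≤ D / η * rp ρ a x y := by gcongr
      have h6 : ρ x y ^ 2 ≤ (D / η * rp ρ a x y) ^ 2 := by
        apply pow_le_pow_left₀ h3 h5
      rw [mul_pow] at h6
      have : 0 ≤ (δ/2)^2 := by positivity
      linarith
  rcases Nat.eq_zero_or_pos d with rfl | hd
  · simp
    positivity
  have hdR : (0:ℝ) < d := by exact_mod_cast hd
  have hsum : (∑ j, ρ (φ (σ s j)) (s • φ j) ^ 2) / d ≤
      (δ/2)^2 + (D/η)^2 * ((∑ j, rp ρ a (φ (σ s j)) (s • φ j) ^ 2) / d) := by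
    rw [div_le_iff₀ hdR]
    calc ∑ j, ρ (φ (σ s j)) (s • φ j) ^ 2 ≤
        ∑ j, ((δ / 2) ^ 2 + (D / η) ^ 2 * rp ρ a (φ (σ s j)) (s • φ j) ^ 2) :=
          Finset.sum_le_sum fun j _ => hpt _ _
      _ = _ := by
          rw [Finset.sum_add_distrib, ← Finset.mul_sum, Finset.sum_const, Finset.card_univ,
            Fintype.card_fin, nsmul_eq_mul]
          field_simp
  refine hsum.trans ?_
  have h7 : (D/η)^2 * ((∑ j, rp ρ a (φ (σ s j)) (s • φ j) ^ 2) / d) ≤
      (D/η)^2 * (δ * η / (2 * D))^2 := mul_le_mul_of_nonneg_left h1 (by positivity)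
  have h8 : (D/η)^2 * (δ * η / (2 * D))^2 = (δ/2)^2 := by
    field_simp
  rw [h8] at h7
  nlinarith

end

end Pool.Agent.Q68.PM
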