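import Pool.Agent.Q68.PM.Count
import Pool.Agent.Q68.PM.Prime

/-!
# `p`-metric mean dimension equals metric mean dimension
-/

set_option autoImplicit false

namespace Pool.Agent.Q68.PM

open Filter Topology Finset

lemma asym (γ D : ℝ) (hγ : 0 < γ) (hD : 1 ≤ D) : ∀ᶠ ε in 𝓝[>] (0:ℝ), 0 < ε ∧ ε < 1 ∧
    2 * ε ^ γ ≤ 1 ∧ ∀ Λ : ℝ, Λ ≤ 3 * (Real.log (3 * D) + Real.log (1 / ε) + 1) ^ 2 →
      (2 * ε ^ γ) * (Λ - Real.log (2 * ε ^ γ)) + 2 * ε ^ γ ≤ γ * Real.log (1 / ε) := by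
  set c := Real.log (3 * D) with hc
  have hc0 : 0 ≤ c := Real.log_nonneg (by linarith)
  set C : ℝ := 3 * (c + 2) ^ 2 + γ + 1 with hC
  have hC0 : 0 < C := by positivity
  have hu : Tendsto (fun ε : ℝ => Real.log (1 / ε)) (𝓝[>] 0) atTop := by
    have : (fun ε : ℝ => Real.log (1 / ε)) = fun ε => - Real.log ε := by
      funext ε; rw [one_div, Real.log_inv]
    rw [this]
    exact tendsto_neg_atBot_atTop.comp Real.tendsto_log_nhdsGT_zero
  have hgu : Tendsto (fun u : ℝ => (γ * u) ^ 2 * Real.exp (-(γ * u))) atTop (𝓝 0) :=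
    (Real.tendsto_pow_mul_exp_neg_atTop_nhds_zero 2).comp (tendsto_id.const_mul_atTop hγ)
  have h1 : ∀ᶠ u : ℝ in atTop, (γ * u) ^ 2 * Real.exp (-(γ * u)) < γ ^ 3 / (2 * C) :=
    hgu.eventually_lt_const (by positivity)
  have h2 : ∀ᶠ u : ℝ in atTop, 1 ≤ u := eventually_ge_atTop 1
  have h3 : ∀ᶠ ε : ℝ in 𝓝[>] 0, 0 < ε ∧ ε < 1 := by
    have := Ioo_mem_nhdsGT (show (0:ℝ) < 1 by norm_num)
    filter_upwards [this] with ε hε
    exact hε
  have h4 : ∀ᶠ ε : ℝ in 𝓝[>] 0, 2 * ε ^ γ ≤ 1 := by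
    have h5 : Tendsto (fun ε : ℝ => 2 * ε ^ γ) (𝓝[>] 0) (𝓝 (2 * 0 ^ γ)) := by
      apply Tendsto.const_mul
      exact ((Real.continuousAt_rpow_const 0 γ (Or.inr hγ.le)).tendsto).mono_left
        nhdsWithin_le_nhds
    rw [Real.zero_rpow hγ.ne', mul_zero] at h5
    filter_upwards [h5.eventually_lt_const (show (0:ℝ) < 1 by norm_num)] with ε hε
    exact hε.le
  filter_upwards [h3, h4, hu.eventually h1, hu.eventually h2] with ε h3 h4 h1 h2
  refine ⟨h3.1, h3.2, h4, ?_⟩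
  intro Λ hΛ
  set u := Real.log (1 / ε) with hu'
  have hlogε : Real.log ε = -u := by rw [hu', one_div, Real.log_inv]; ring
  have hpow : ε ^ γ = Real.exp (-(γ * u)) := by
    rw [Real.rpow_def_of_pos h3.1, hlogε]
    congr 1
    ring
  have hlog2 : Real.log (2 * ε ^ γ) = Real.log 2 - γ * u := by
    rw [Real.log_mul (by norm_num) (Real.rpow_pos_of_pos h3.1 _).ne', Real.log_rpow h3.1, hlogε]
    ring
  rw [hlog2, hpow]
  set E := Real.exp (-(γ * u)) with hE
  have hE0 : 0 < E := Real.exp_pos _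
  have hln2 : 0 ≤ Real.log 2 := Real.log_nonneg (by norm_num)
  have hb : Λ - (Real.log 2 - γ * u) + 1 ≤ C * u ^ 2 := by
    have hcu : c + u + 1 ≤ (c + 2) * u := by nlinarith
    have hcu0 : 0 ≤ c + u + 1 := by linarith
    have hcu2 : (c + u + 1) ^ 2 ≤ ((c + 2) * u) ^ 2 := pow_le_pow_left₀ hcu0 hcu 2
    have huu : u ≤ u ^ 2 := by nlinarith
    have h1u : 1 ≤ u ^ 2 := by nlinarith
    have hgu2 : γ * u ≤ γ * u ^ 2 := mul_le_mul_of_nonneg_left huu hγ.le
    calc Λ - (Real.log 2 - γ * u) + 1 ≤ 3 * (c + u + 1) ^ 2 + γ * u + 1 := by linarith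
      _ ≤ 3 * ((c + 2) * u) ^ 2 + γ * u ^ 2 + u ^ 2 := by linarith
      _ = C * u ^ 2 := by rw [hC]; ring
  have hkey : E * u ^ 2 * (2 * C) ≤ γ := by
    have h6 : (γ * u) ^ 2 * E < γ ^ 3 / (2 * C) := h1
    rw [lt_div_iff₀ (by positivity)] at h6
    have h7 : γ ^ 2 * (E * u ^ 2 * (2 * C)) < γ ^ 2 * γ := by nlinarith
    exact (lt_of_mul_lt_mul_left h7 (by positivity)).le
  calc 2 * E * (Λ - (Real.log 2 - γ * u)) + 2 * E = 2 * E * (Λ - (Real.log 2 - γ * u) + 1) := by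
        ring
    _ ≤ 2 * E * (C * u ^ 2) := mul_le_mul_of_nonneg_left hb (by positivity)
    _ = E * u ^ 2 * (2 * C) := by ring
    _ ≤ γ := hkey
    _ ≤ γ * u := by nlinarith

section

variable {G X : Type} [TopologicalSpace X] [CompactSpace X] [SMul G X] {ρ : X → X → ℝ}
  (h : IsContPseudo ρ)
include h

lemma key {d : ℕ → ℕ} (hd : Tendsto d atTop atTop) (σ : ∀ i, G → Equiv.Perm (Fin (d i)))
    (a : ℕ → X) (ha : DenseRange a) (D : ℝ) (hD1 : 1 ≤ D) (hD : ∀ x y, ρ x y ≤ D)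
    (p : ENNReal) (hp : 1 ≤ p) (hp' : p ≠ ⊤) (γ : ℝ) (hγ : 0 < γ)
    (ε : ℝ) (hε0 : 0 < ε) (hε1 : ε < 1) (hη1 : 2 * ε ^ γ ≤ 1)
    (herr : ∀ Λ : ℝ, Λ ≤ 3 * (Real.log (3 * D) + Real.log (1 / ε) + 1) ^ 2 →
      (2 * ε ^ γ) * (Λ - Real.log (2 * ε ^ γ)) + 2 * ε ^ γ ≤ γ * Real.log (1 / ε))
    (F : Finset G) (δ : ℝ) (hδ : 0 < δ) (A : ℝ)
    (hlim : limsup (fun i => elog (sepN (MapSet ρ F δ (σ i)) (rhoE ρ p) (ε ^ (1 + γ))) /
      ((d i * Real.log (1 / ε ^ (1 + γ)) : ℝ) : EReal)) atTop < (A : EReal)) :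
    ∃ δ' > 0, limsup (fun i => elog (sepN (MapSet (rp ρ a) F δ' (σ i)) (rhoE (rp ρ a) ⊤) ε) /
      ((d i * Real.log (1 / ε) : ℝ) : EReal)) atTop ≤ ((A * (1 + γ) + γ : ℝ) : EReal) := by
  obtain ⟨δ', hδ', hsub⟩ := mapSet_sub (G := G) h a ha D hD1 hD δ hδ
  refine ⟨δ', hδ', ?_⟩
  obtain ⟨K, M, l, hl, hcard⟩ := exists_label h a D hD1 hD ε hε0 hε1.le
  apply Filter.limsup_le_of_le (by isBoundedDefault)
  have hev := Filter.eventually_lt_of_limsup_lt hlim (by isBoundedDefault)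
  filter_upwards [hev, hd.eventually_ge_atTop 1] with i hi hdi
  have hu : 0 < Real.log (1 / ε) := Real.log_pos (by rw [lt_div_iff₀ hε0]; linarith)
  set u := Real.log (1 / ε) with hudef
  have hu2 : Real.log (1 / ε ^ (1 + γ)) = (1 + γ) * u := by
    rw [hudef, one_div, Real.log_inv, Real.log_rpow hε0, one_div, Real.log_inv]
    ring
  rw [hu2] at hi
  have hdR : (0:ℝ) < d i := by exact_mod_cast hdi
  have hpos1 : (0:ℝ) < d i * ((1 + γ) * u) := by positivity
  have hpos2 : (0:ℝ) < d i * u := by positivity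
  rw [EReal.div_lt_iff (by exact_mod_cast hpos1) (EReal.coe_ne_top _)] at hi
  rw [← EReal.coe_mul] at hi
  rw [EReal.div_le_iff_le_mul (by exact_mod_cast hpos2) (EReal.coe_ne_top _)]
  rw [← EReal.coe_mul]
  -- the counting
  have hε'0 : 0 < ε ^ (1 + γ) := Real.rpow_pos_of_pos hε0 _
  have hη0 : 0 < 2 * ε ^ γ := by positivity
  have hq : 1 ≤ p.toReal := by
    have := (ENNReal.toReal_le_toReal (by simp) hp').2 hp
    simpa using this
  have hquot : 2 * ε ^ (1 + γ) / ε = 2 * ε ^ γ := by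
    rw [Real.rpow_add hε0, Real.rpow_one]
    field_simp
  have hη : (2 * ε ^ (1 + γ) / ε) ^ p.toReal ≤ 2 * ε ^ γ := by
    rw [hquot]
    calc (2 * ε ^ γ) ^ p.toReal ≤ (2 * ε ^ γ) ^ (1:ℝ) :=
          Real.rpow_le_rpow_of_exponent_ge hη0 hη1 hq
      _ = _ := Real.rpow_one _
  have hcount := sepN_le ρ (rp ρ a) (rp_le h a) h.self h.symm h.nonneg (rp_pseudo h a).tri
    (rp_pseudo h a).symm l ε hε0 hl p hp hp' (ε ^ (1 + γ)) hε'0 (2 * ε ^ γ) hη0 hη1 hη (d i) hdi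
    (MapSet (rp ρ a) F δ' (σ i))
  have hmono : sepN (MapSet (rp ρ a) F δ' (σ i)) (rhoE ρ p) (ε ^ (1 + γ)) ≤
      sepN (MapSet ρ F δ (σ i)) (rhoE ρ p) (ε ^ (1 + γ)) := by
    unfold sepN
    refine iSup_le fun S => iSup_le fun hS => iSup_le fun hsep => ?_
    exact le_iSup_of_le S (le_iSup_of_le (hS.trans (hsub F (d i) (σ i))) (le_iSup_of_le hsep le_rfl))
  have hcodes := card_codes (L := Fin K → Fin (M + 1)) (d i) (2 * ε ^ γ) hη0 hη1
  set B := (Finset.univ.filter (fun u : Fin (d i) → Option (Fin K → Fin (M + 1)) =>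
      ((Finset.univ.filter (fun j => (u j).isSome = true)).card : ℝ) ≤ 2 * ε ^ γ * d i)).card with hB
  set N1 := sepN (MapSet ρ F δ (σ i)) (rhoE ρ p) (ε ^ (1 + γ)) with hN1
  set N2 := sepN (MapSet (rp ρ a) F δ' (σ i)) (rhoE (rp ρ a) ⊤) ε with hN2
  have hN : N2 ≤ N1 * (B : ℕ∞) := hcount.trans (mul_le_mul_left hmono _)
  have hNE : (N2 : ENNReal) ≤ (N1 : ENNReal) * (B : ENNReal) := by
    have := ENat.toENNReal_le.2 hN
    rwa [ENat.toENNReal_mul, ENat.toENNReal_coe] at this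
  have hN1E : (N1 : ENNReal) ≤ ENNReal.ofReal (Real.exp (A * (d i * ((1 + γ) * u)))) := by
    have : ENNReal.log (N1 : ENNReal) ≤
        ENNReal.log (ENNReal.ofReal (Real.exp (A * (d i * ((1 + γ) * u))))) := by
      rw [ENNReal.log_ofReal_of_pos (Real.exp_pos _), Real.log_exp]
      exact hi.le
    exact ENNReal.log_le_log_iff.1 this
  have hBE : (B : ENNReal) ≤ ENNReal.ofReal (Real.exp (d i * (γ * u))) := by
    rw [← ENNReal.ofReal_natCast]
    apply ENNReal.ofReal_le_ofReal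
    refine hcodes.trans ?_
    apply Real.exp_le_exp.2
    apply mul_le_mul_of_nonneg_left _ hdR.le
    exact herr _ hcard
  have hfin : (N2 : ENNReal) ≤
      ENNReal.ofReal (Real.exp (A * (d i * ((1 + γ) * u)) + d i * (γ * u))) := by
    rw [Real.exp_add, ENNReal.ofReal_mul (Real.exp_pos _).le]
    exact hNE.trans (mul_le_mul' hN1E hBE)
  have := ENNReal.log_le_log_iff.2 hfin
  rw [ENNReal.log_ofReal_of_pos (Real.exp_pos _), Real.log_exp] at this
  refine le_trans this ?_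
  rw [EReal.coe_le_coe_iff]
  apply le_of_eq
  ring

lemma mdimRho_prime_le {d : ℕ → ℕ} (hd : Tendsto d atTop atTop)
    (σ : ∀ i, G → Equiv.Perm (Fin (d i)))
    (a : ℕ → X) (ha : DenseRange a)
    (p : ENNReal) (hp : 1 ≤ p) (hp' : p ≠ ⊤) :
    mdimRho σ ⊤ (rp ρ a) ≤ mdimRho σ p ρ := by
  obtain ⟨D, hD1, hD⟩ := exists_bound h
  apply EReal.le_of_forall_lt_iff_le.1
  intro z hz
  obtain ⟨A, hA1, hA2⟩ := EReal.lt_iff_exists_real_btwn.1 hz
  rw [EReal.coe_lt_coe_iff] at hA2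
  set γ : ℝ := (z - A) / (|A| + 1) with hγdef
  have hγ : 0 < γ := by
    have : 0 < |A| + 1 := by positivity
    apply div_pos (by linarith) this
  have hzb : A * (1 + γ) + γ ≤ z := by
    have h1 : 0 < |A| + 1 := by positivity
    have h2 : γ * (|A| + 1) = z - A := by
      rw [hγdef]; field_simp
    have h3 : A ≤ |A| := le_abs_self A
    nlinarith
  have hfreq := Filter.frequently_lt_of_liminf_lt (by isBoundedDefault) hA1
  have hκ : Tendsto (fun ε : ℝ => ε ^ (1 / (1 + γ))) (𝓝[>] 0) (𝓝[>] 0) := by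
    apply tendsto_nhdsWithin_of_tendsto_nhds_of_eventually_within
    · have h5 : Tendsto (fun ε : ℝ => ε ^ (1 / (1 + γ))) (𝓝[>] 0) (𝓝 (0 ^ (1 / (1 + γ)))) :=
        ((Real.continuousAt_rpow_const 0 _ (Or.inr (by positivity))).tendsto).mono_left
        nhdsWithin_le_nhds
      rwa [Real.zero_rpow (by positivity)] at h5
    · filter_upwards [self_mem_nhdsWithin] with ε hε
      exact Real.rpow_pos_of_pos hε _
  have hfreq2 : ∃ᶠ ε in 𝓝[>] (0:ℝ), (⨅ (F : Finset G) (δ : ℝ) (_ : 0 < δ),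
      limsup (fun i => elog (sepN (MapSet ρ F δ (σ i)) (rhoE ρ p) (ε ^ (1 + γ))) /
      ((d i * Real.log (1 / ε ^ (1 + γ)) : ℝ) : EReal)) atTop) < (A : EReal) := by
    apply hκ.frequently
    refine (hfreq.and_eventually self_mem_nhdsWithin).mono ?_
    rintro ε ⟨h1, h2⟩
    have h3 : (ε ^ (1 / (1 + γ))) ^ (1 + γ) = ε := by
      rw [← Real.rpow_mul (le_of_lt h2)]
      have : 1 / (1 + γ) * (1 + γ) = 1 := by field_simp
      rw [this, Real.rpow_one]
    simp only [h3]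
    exact h1
  unfold mdimRho
  apply Filter.liminf_le_of_frequently_le _ (by isBoundedDefault)
  refine (hfreq2.and_eventually (asym γ D hγ hD1)).mono ?_
  rintro ε ⟨h1, hε0, hε1, hη1, herr⟩
  simp only [iInf_lt_iff] at h1
  obtain ⟨F, δ, hδ, hlim⟩ := h1
  obtain ⟨δ', hδ', hle⟩ := key h hd σ a ha D hD1 hD p hp hp' γ hγ ε hε0 hε1 hη1 herr F δ hδ A hlim
  refine (iInf_le_of_le F (iInf_le_of_le δ' (iInf_le_of_le hδ' hle))).trans ?_
  rw [EReal.coe_le_coe_iff]
  exact hzb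

omit [CompactSpace X] [SMul G X] in
lemma rhoE_le_top (p : ENNReal) (hp : 1 ≤ p) {d : ℕ} (φ ψ : Fin d → X) :
    rhoE ρ p φ ψ ≤ rhoE ρ ⊤ φ ψ := by
  by_cases hp' : p = ⊤
  · rw [hp']
  have hq : 1 ≤ p.toReal := by
    have := (ENNReal.toReal_le_toReal (by simp) hp').2 hp
    simpa using this
  have hq0 : 0 < p.toReal := by linarith
  simp only [rhoE, if_neg hp', if_true]
  rcases Nat.eq_zero_or_pos d with rfl | hd
  · simp
    rw [Real.zero_rpow (by positivity)]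
  have hdR : (0:ℝ) < d := by exact_mod_cast hd
  set Mx := ⨆ j, ρ (φ j) (ψ j) with hMx
  have hle : ∀ j, ρ (φ j) (ψ j) ≤ Mx := fun j =>
    le_ciSup (f := fun j => ρ (φ j) (ψ j)) (Set.finite_range _).bddAbove j
  have hM0 : 0 ≤ Mx := (h.nonneg _ _).trans (hle ⟨0, hd⟩)
  have h1 : (∑ j, ρ (φ j) (ψ j) ^ p.toReal) / d ≤ Mx ^ p.toReal := by
    rw [div_le_iff₀ hdR]
    calc ∑ j, ρ (φ j) (ψ j) ^ p.toReal ≤ ∑ j : Fin d, Mx ^ p.toReal :=
          Finset.sum_le_sum fun j _ => Real.rpow_le_rpow (h.nonneg _ _) (hle j) hq0.le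
      _ = Mx ^ p.toReal * d := by
          rw [Finset.sum_const, Finset.card_univ, Fintype.card_fin, nsmul_eq_mul, mul_comm]
  have h0 : 0 ≤ (∑ j, ρ (φ j) (ψ j) ^ p.toReal) / d :=
    div_nonneg (Finset.sum_nonneg fun j _ => Real.rpow_nonneg (h.nonneg _ _) _) hdR.le
  calc _ ≤ (Mx ^ p.toReal) ^ (1 / p.toReal) := Real.rpow_le_rpow h0 h1 (by positivity)
    _ = Mx := by
        rw [← Real.rpow_mul hM0]
        have : p.toReal * (1 / p.toReal) = 1 := by field_simp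
        rw [this, Real.rpow_one]

omit [CompactSpace X] in
lemma mdimRho_mono {d : ℕ → ℕ} (σ : ∀ i, G → Equiv.Perm (Fin (d i)))
    (p : ENNReal) (hp : 1 ≤ p) : mdimRho σ p ρ ≤ mdimRho σ ⊤ ρ := by
  unfold mdimRho
  apply Filter.liminf_le_liminf _ (by isBoundedDefault) (by isBoundedDefault)
  have := Ioo_mem_nhdsGT (show (0:ℝ) < 1 by norm_num)
  filter_upwards [this] with ε hε
  have hu : 0 < Real.log (1 / ε) := Real.log_pos (by rw [lt_div_iff₀ hε.1]; linarith [hε.2])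
  refine iInf_mono fun F => iInf_mono fun δ => iInf_mono fun hδ => ?_
  apply Filter.limsup_le_limsup _ (by isBoundedDefault) (by isBoundedDefault)
  filter_upwards with i
  have hnn : (0:ℝ) ≤ d i * Real.log (1 / ε) := by positivity
  apply EReal.div_le_div_right_of_nonneg (by exact_mod_cast hnn)
  unfold elog
  apply ENNReal.log_le_log_iff.2
  apply ENat.toENNReal_le.2
  unfold sepN
  refine iSup_le fun S => iSup_le fun hS => iSup_le fun hsep => ?_
  refine le_iSup_of_le S (le_iSup_of_le hS (le_iSup_of_le ?_ le_rfl))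
  intro x hx y hy hxy
  exact (hsep x hx y hy hxy).trans (rhoE_le_top h p hp x y)

end

/-- The main theorem. -/
theorem main (G : Type) [Group G] [Countable G] (X : Type) [TopologicalSpace X]
    [CompactSpace X] [TopologicalSpace.MetrizableSpace X] [MulAction G X]
    [ContinuousConstSMul G X] (d : ℕ → ℕ) (σ : ∀ i, G → Equiv.Perm (Fin (d i)))
    (hσ : IsSoficApprox σ) (p : ENNReal) (hp : 1 ≤ p) :
    mdimM X σ p = mdimM X σ ⊤ := by
  apply le_antisymm
  · unfold mdimM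
    exact iInf_mono fun ρ => iInf_mono fun h => iInf_mono fun hG => mdimRho_mono h σ p hp
  · by_cases hp' : p = ⊤
    · rw [hp']
    rcases isEmpty_or_nonempty X with hX | hX
    · unfold mdimM
      refine iInf_mono fun ρ => iInf_mono fun h => iInf_mono fun hG => ?_
      apply le_of_eq
      unfold mdimRho
      congr 1
      funext ε
      refine iInf_congr fun F => iInf_congr fun δ => iInf_congr fun hδ => ?_
      congr 1
      funext i
      rcases Nat.eq_zero_or_pos (d i) with h0 | hpos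
      · have : ((d i * Real.log (1 / ε) : ℝ) : EReal) = 0 := by
          rw [h0]; simp
        rw [this, EReal.div_zero, EReal.div_zero]
      · have : (rhoE ρ ⊤ : (Fin (d i) → X) → (Fin (d i) → X) → ℝ) = rhoE ρ p := by
          funext φ
          exact (hX.false (φ ⟨0, hpos⟩)).elim
        rw [this]
    · letI := TopologicalSpace.metrizableSpaceMetric X
      haveI : SecondCountableTopology X := inferInstance
      unfold mdimM
      refine le_iInf fun ρ => le_iInf fun h => le_iInf fun hG => ?_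
      have ha : DenseRange (TopologicalSpace.denseSeq X) := TopologicalSpace.denseRange_denseSeq X
      refine iInf_le_of_le (rp ρ (TopologicalSpace.denseSeq X)) (iInf_le_of_le (rp_pseudo h _)
        (iInf_le_of_le (rp_dynGen h _ ha hG) ?_))
      exact mdimRho_prime_le h hσ.tendsto σ _ ha p hp hp'

end Pool.Agent.Q68.PM
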